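import Mathlib
import Pool.Agent.H.MP_15dca6_an.D

set_option autoImplicit false

namespace Pool.Agent.Results.MP_15dca6_an.Conn

def essSpec {H : Type} [NormedAddCommGroup H] [InnerProductSpace ℂ H] (T : H →L[ℂ] H) : Set ℂ :=
  {z | ¬ ∃ B : H →L[ℂ] H, IsCompactOperator (B * (z • 1 - T) - 1 : H →L[ℂ] H) ∧
    IsCompactOperator ((z • 1 - T) * B - 1 : H →L[ℂ] H)}

def InQ {H : Type} [NormedAddCommGroup H] [InnerProductSpace ℂ H] (T : H →L[ℂ] H) : Prop :=
  ∀ M : Submodule ℂ H, IsClosed (M : Set H) → (∀ x ∈ M, T x ∈ M) → M ≠ ⊥ → M ≠ ⊤ →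
    FiniteDimensional ℂ (H ⧸ M)

open Pool.Agent.H.MP_15dca6_an in
theorem result (H : Type) [NormedAddCommGroup H] [InnerProductSpace ℂ H] [CompleteSpace H]
    (hH : ¬ FiniteDimensional ℂ H) (T : H →L[ℂ] H) (hT : InQ T) :
    IsConnected (essSpec T) ∧ ∀ (c : ℂ) (r R : ℝ), 0 < r → r < R →
      essSpec T ≠ Metric.sphere c r ∪ Metric.sphere c R := by
  have hQ : QQ T := fun M h1 h2 h3 => by
    by_cases h : M = ⊤
    · rw [h]; exact Submodule.CoFG.top
    · exact hT M h1 h2 h3 h
  have h : IsConnected (essSpec T) := by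
    convert! bb_conn hQ hH using 1
    ext z
    exact not_congr (ess_iff hQ hH z)
  refine ⟨h, fun c r R h0 h1 e => ?_⟩
  rw [e] at h
  obtain ⟨w, hw, h2⟩ := h.isPreconnected.intermediate_value (a := c + r) (b := c + R)
    (f := fun z => dist z c) (Or.inl (by simp [h0.le])) (Or.inr (by simp [(h0.trans h1).le]))
    (by fun_prop) (show (r + R) / 2 ∈ _ by
      simp only [dist_self_add_left, Complex.norm_real, Real.norm_eq_abs, abs_of_pos h0,
        abs_of_pos (h0.trans h1)]
      constructor <;> linarith)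
  rcases hw with hw | hw <;> rw [Metric.mem_sphere] at hw <;> simp only [hw] at h2 <;> linarith

end Pool.Agent.Results.MP_15dca6_an.Conn
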